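import Pool.Agent.K3h34.DL.Wrap
import Pool.Agent.Results.MP_7193be_nt.ZeroDensity

set_option autoImplicit false

/-!
# Differenced Hasse-Weil L-functions: exceptional zeros and zero spacings, unconditionally

Let `Λ = Λ_A(i; X, s)` be the completed Hasse-Weil L-function of `H^i(X)`, where `H^i(X)` is (up to
semisimplification) a sum of `n + 1` parts `V(f) (-r)` attached to newforms of any weight `k ≥ 1`, level and nebentypus,
`k + 2r = i + 1` (`Part`, `IsCompleted` of the file `ZeroDensity`): for instance `H^1` of the modular curves, of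
elliptic curves over `ℚ` and of their products, `H^3` of rigid Calabi-Yau threefolds. The conjecture (d) says that the
zeros of `Λ` are on the line `Re s = (i + 1)/2`.

For `h > 0` and a Hermite-Biehler multiplier `E` with respect to this line (for instance
`E(s) = e^{iθ} e^{k(s - (i+1)/2)}`, `k ≥ 0`) put `F(s) = G(s) + conj G(i + 1 - conj s)` with `G(s) = E(s) Λ(s + h)`. By
the functional equation the second term is `conj E(i + 1 - conj s)` times a constant times `Λ(s - h)`: these are the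
differenced L-functions of Lagarias (Zero spacing distributions for differenced L-functions, 2005), who showed that
their zeros are on the line, simple and evenly spaced if `h ≥ 1/2`, or for each fixed `h > 0` under the Riemann
hypothesis for `Λ`. Here everything is unconditional and uniform in `E`, `0 < h ≤ 1/2` and `T ≥ 2`:

* the number of exceptional zeros of `F` (off the line or multiple) in a window is at most four times the number of the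
  zeros of `Λ` with real part at least `(i + 1)/2 + h` in this window;
* their proportion in `T < Im s ≤ 2T` is at most `C T^(-c h)`, for each `c < 1`;
* outside a set of heights `t` in `[T, 2T]` of measure at most `C T^(1 - c h)` the zeros at distance at most `5h`
  from the height `t` are simple, on the line, and evenly spaced up to a factor `1 ± ε`;
* `Λ` has no zeros at distance more than `h` from the line iff for all `θ` the zeros of `F` with `E = e^{iθ}` are all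
  on the line; and (d) holds iff this is so for all `h > 0`, for one `θ` (outside one class modulo `π`).
-/

namespace Pool.Agent.Results.MP_7193be_nt.DifferencedLFunctions

open Complex MeasureTheory Set
open Pool.Agent.Results.MP_7193be_nt.ZeroDensity (Part IsCompleted)

noncomputable section

/-- Hermite-Biehler multipliers for the line `Re s = (i + 1)/2`: `E` is entire, has no zero with `Re s ≥ (i + 1)/2`, and
`|E(i + 1 - conj s)| ≤ |E(s)|` for `Re s > (i + 1)/2`. -/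
def HB (i : ℕ) (E : ℂ → ℂ) : Prop := Differentiable ℂ E ∧ (∀ s : ℂ, ((i : ℝ) + 1) / 2 ≤ s.re → E s ≠ 0) ∧
  ∀ s : ℂ, ((i : ℝ) + 1) / 2 < s.re → ‖E (i + 1 - (starRingEnd ℂ) s)‖ ≤ ‖E s‖

/-- `F(s) = G(s) + conj G(i + 1 - conj s)` with `G(s) = E(s) Λ(s + h)`. -/
def F (i : ℕ) (Λ E : ℂ → ℂ) (h : ℝ) (s : ℂ) : ℂ :=
  E s * Λ (s + h) + (starRingEnd ℂ) (E (i + 1 - (starRingEnd ℂ) s) * Λ (i + 1 - (starRingEnd ℂ) s + h))

/-- The multiplier `e^{iθ} e^{k (s - (i + 1)/2)}`. -/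
def Ex (i : ℕ) (θ k : ℝ) (s : ℂ) : ℂ := cexp (I * θ + k * (s - (i + 1) / 2))

/-- The zeros of `f` with height in `J`. -/
def Zer (f : ℂ → ℂ) (J : Set ℝ) : Set ℂ := {s | f s = 0 ∧ s.im ∈ J}

/-- The exceptional zeros of `f` with height in `J`: those off the line `Re s = (i + 1)/2` or multiple. -/
def Exc (i : ℕ) (f : ℂ → ℂ) (J : Set ℝ) : Set ℂ :=
  {s | f s = 0 ∧ s.im ∈ J ∧ (s.re ≠ ((i : ℝ) + 1) / 2 ∨ deriv f s = 0)}

/-- The number of zeros of `f` in `A`, counted with multiplicity. -/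
def num (f : ℂ → ℂ) (A : Set ℂ) : ℕ := ∑ᶠ s ∈ A, analyticOrderNatAt f s

/-- `Y` is farther than `Re ρ - (i + 1)/2` from the height of each zero `ρ` of `Λ` with `Re ρ ≥ (i + 1)/2 + h`. -/
def Far (i : ℕ) (Λ : ℂ → ℂ) (h Y : ℝ) : Prop :=
  ∀ ρ : ℂ, Λ ρ = 0 → ((i : ℝ) + 1) / 2 + h ≤ ρ.re → ρ.re - ((i : ℝ) + 1) / 2 < |Y - ρ.im|

/-- Every subinterval of `J` of length at least `δ` contains the height of a zero of `f` on the line. -/
def NoGap (i : ℕ) (f : ℂ → ℂ) (J : Set ℝ) (δ : ℝ) : Prop :=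
  ∀ x ∈ J, ∀ y ∈ J, δ ≤ y - x → ∃ w ∈ Icc x y, f ((i + 1) / 2 + I * w) = 0

/-- Different zeros of `f` on the line with heights in `J` are at distance at least `δ`. -/
def Sep (i : ℕ) (f : ℂ → ℂ) (J : Set ℝ) (δ : ℝ) : Prop :=
  ∀ x ∈ J, ∀ y ∈ J, x < y → f ((i + 1) / 2 + I * x) = 0 → f ((i + 1) / 2 + I * y) = 0 → δ ≤ y - x

/-- In the window `J = [t - 5h, t + 5h]` there is no exceptional zero of any `F`, no gap of length
`(1 + ε) π / (κ log T)`, and for the multipliers `e^{iθ} e^{k (s - (i+1)/2)}`, `k ≥ 0`, all gaps are between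
`(1 - ε) π / (κ log T + k)` and `(1 + ε) π / (κ log T + k)`. -/
def Fine (i : ℕ) (κ : ℝ) (Λ : ℂ → ℂ) (ε h T t : ℝ) : Prop :=
  (∀ E : ℂ → ℂ, HB i E → Exc i (F i Λ E h) (Icc (t - 5 * h) (t + 5 * h)) = ∅ ∧
    NoGap i (F i Λ E h) (Icc (t - 5 * h) (t + 5 * h)) ((1 + ε) * (Real.pi / (κ * Real.log T)))) ∧
  ∀ θ k : ℝ, 0 ≤ k →
    Sep i (F i Λ (Ex i θ k) h) (Icc (t - 5 * h) (t + 5 * h)) ((1 - ε) * (Real.pi / (κ * Real.log T + k))) ∧
    NoGap i (F i Λ (Ex i θ k) h) (Icc (t - 5 * h) (t + 5 * h)) ((1 + ε) * (Real.pi / (κ * Real.log T + k)))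

lemma two_a (i : ℕ) : (2 : ℂ) * ((((i : ℝ) + 1) / 2 : ℝ) : ℂ) = i + 1 := by push_cast; ring

lemma one_a (i : ℕ) : ((((i : ℝ) + 1) / 2 : ℝ) : ℂ) = (i + 1) / 2 := by push_cast; ring

lemma HB_eq (i : ℕ) (E : ℂ → ℂ) : HB i E ↔ Pool.Agent.K3h34.DL.HB (((i : ℝ) + 1) / 2) E := by
  unfold HB Pool.Agent.K3h34.DL.HB
  rw [two_a]

lemma F_eq (i : ℕ) (Λ E : ℂ → ℂ) (h : ℝ) : F i Λ E h = Pool.Agent.K3h34.DL.F (((i : ℝ) + 1) / 2) Λ E h := by
  funext s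
  unfold F Pool.Agent.K3h34.DL.F
  rw [two_a]

lemma Ex_eq (i : ℕ) (θ k : ℝ) : Ex i θ k = Pool.Agent.K3h34.DL.Ex (((i : ℝ) + 1) / 2) θ k := by
  funext s
  unfold Ex Pool.Agent.K3h34.DL.Ex
  rw [one_a]

lemma fine_of {i : ℕ} {κ : ℝ} {Λ : ℂ → ℂ} {ε h T t : ℝ}
    (hf : Pool.Agent.K3h34.DL.Fine (((i : ℝ) + 1) / 2) κ Λ ε h T t) : Fine i κ Λ ε h T t := by
  refine ⟨fun E hE => ⟨?_, ?_⟩, fun θ k hk => ⟨?_, ?_⟩⟩
  · rw [Set.eq_empty_iff_forall_notMem]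
    rintro s ⟨h1, ⟨h2, h3⟩, h4⟩
    rw [F_eq] at h1 h4
    obtain ⟨h5, h6⟩ := (hf.1 E ((HB_eq i E).1 hE)).1 s h1 (by rw [abs_le]; constructor <;> linarith)
    rcases h4 with h4 | h4
    · exact h4 h5
    · exact h6 h4
  · intro x hx y hy hxy
    obtain ⟨w, hw, hw0⟩ := (hf.1 E ((HB_eq i E).1 hE)).2 x y hx.1 hy.2 hxy
    refine ⟨w, hw, ?_⟩
    rw [F_eq, ← one_a]
    exact hw0
  · intro x hx y hy hxy h1 h2
    rw [F_eq, Ex_eq, ← one_a] at h1 h2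
    exact (hf.2 θ k hk).1 x y hx.1 hxy hy.2 h1 h2
  · intro x hx y hy hxy
    obtain ⟨w, hw, hw0⟩ := (hf.2 θ k hk).2 x y hx.1 hy.2 hxy
    refine ⟨w, hw, ?_⟩
    rw [F_eq, Ex_eq, ← one_a]
    exact hw0

/-- **Main theorem.** Let `Λ` be the completed Hasse-Weil L-function with the parts `π_0, …, π_n`. It exists and is
unique; `F(s) = G(s) + conj G(i + 1 - conj s)` with `G(s) = E(s) Λ(s + h)`. -/
theorem result {i n : ℕ} (π : Fin (n + 1) → Part i) :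
    ∃ Λ : ℂ → ℂ, IsCompleted π Λ ∧ (∀ Λ' : ℂ → ℂ, IsCompleted π Λ' → Λ' = Λ) ∧
    (∀ (E : ℂ → ℂ) (h : ℝ), HB i E → 0 < h → (∀ x y : ℝ, (Zer (F i Λ E h) (Icc x y)).Finite) ∧
      ∀ x y : ℝ, x ≤ y → Far i Λ h x → Far i Λ h y →
        num (F i Λ E h) (Exc i (F i Λ E h) (Ioo x y)) ≤
          4 * num Λ {ρ | ((i : ℝ) + 1) / 2 + h ≤ ρ.re ∧ ρ.im ∈ Ioo x y}) ∧
    (∀ c : ℝ, c < 1 → ∃ C : ℝ, 0 < C ∧ ∀ (E : ℂ → ℂ) (h T : ℝ), HB i E → 0 < h → h ≤ 1 / 2 → 2 ≤ T →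
      (num (F i Λ E h) (Exc i (F i Λ E h) (Ioc T (2 * T))) : ℝ) ≤
        C * T ^ (-(c * h)) * num (F i Λ E h) (Zer (F i Λ E h) (Ioc T (2 * T))) ∧
      (C ≤ T ^ h → (num (F i Λ E h) (Exc i (F i Λ E h) (Ioc T (2 * T))) : ℝ) ≤
        C * T ^ (1 - c * h) * Real.log T)) ∧
    (∀ ε : ℝ, 0 < ε → ε < 1 → ∃ c C : ℝ, 0 < c ∧ 0 < C ∧ ∀ h T : ℝ, 0 < h → h ≤ 1 / 2 → 2 ≤ T →
      volume {t : ℝ | T ≤ t ∧ t ≤ 2 * T ∧ ¬ Fine i (n + 1) Λ ε h T t} ≤ ENNReal.ofReal (C * T ^ (1 - c * h))) ∧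
    (∀ h : ℝ, 0 < h → ((∀ s : ℂ, Λ s = 0 → |s.re - ((i : ℝ) + 1) / 2| ≤ h) ↔
      ∀ (θ : ℝ) (s : ℂ), F i Λ (Ex i θ 0) h s = 0 → s.re = ((i : ℝ) + 1) / 2)) ∧
    ∀ θ : ℝ, (∃ s : ℂ, F i Λ (Ex i θ 0) 0 s ≠ 0) → ((∀ s : ℂ, Λ s = 0 → s.re = ((i : ℝ) + 1) / 2) ↔
      ∀ h : ℝ, 0 < h → ∀ s : ℂ, F i Λ (Ex i θ 0) h s = 0 → s.re = ((i : ℝ) + 1) / 2) := by
  obtain ⟨Λ, v, hv, h1, h2, h3, h4⟩ := ZeroDensity.key π
  have hκ : (1 : ℝ) / 2 ≤ ((n + 1 : ℕ) : ℝ) := by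
    push_cast
    have : (0 : ℝ) ≤ n := Nat.cast_nonneg n
    linarith
  have hκ0 : (0 : ℝ) < ((n + 1 : ℕ) : ℝ) := by linarith
  have hX := Pool.Agent.K3h34.DL.xs_of_PL hκ h4
  obtain ⟨H, Z, hgy⟩ := h4.gy
  have D : Pool.Agent.K3h34.DL.Dat (((i : ℝ) + 1) / 2) Λ
      (fun z => v * Λ (((((i : ℝ) + 1) / 2 : ℝ) : ℂ) + z)) v := ⟨hX, hv, fun z => rfl⟩
  refine ⟨Λ, h1, h2, fun E h hE hh => ⟨fun x y => ?_, fun x y hxy hx hy => ?_⟩, fun c hc => ?_,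
    fun ε hε hε1 => ?_, fun h hh => ?_, fun θ ⟨s₀, hs₀⟩ => ?_⟩
  · rw [F_eq]
    exact Pool.Agent.K3h34.DL.part_fin D E ((HB_eq i E).1 hE) h hh x y
  · have h5 := Pool.Agent.K3h34.DL.part0 D E ((HB_eq i E).1 hE) h x y hh hxy hx hy
    rw [F_eq]
    have e1 : Exc i (Pool.Agent.K3h34.DL.F (((i : ℝ) + 1) / 2) Λ E h) (Ioo x y) =
        {s | Pool.Agent.K3h34.DL.F (((i : ℝ) + 1) / 2) Λ E h s = 0 ∧ x < s.im ∧ s.im < y ∧
        (s.re ≠ ((i : ℝ) + 1) / 2 ∨ deriv (Pool.Agent.K3h34.DL.F (((i : ℝ) + 1) / 2) Λ E h) s = 0)} := by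
      ext s
      exact ⟨fun ⟨a1, ⟨a2, a3⟩, a4⟩ => ⟨a1, a2, a3, a4⟩, fun ⟨a1, a2, a3, a4⟩ => ⟨a1, ⟨a2, a3⟩, a4⟩⟩
    rw [e1]
    exact h5
  · obtain ⟨C, hC, h5⟩ := Pool.Agent.K3h34.DL.part2 D hκ0 hgy.good hgy.top h4.dens c hc
    refine ⟨C, hC, fun E h T hE hh hh2 hT => ?_⟩
    have h6 := h5 E h T ((HB_eq i E).1 hE) hh hh2 hT
    rw [F_eq]
    have e1 : Zer (Pool.Agent.K3h34.DL.F (((i : ℝ) + 1) / 2) Λ E h) (Ioc T (2 * T)) =
      Pool.Agent.K3h34.DL.Zer (((i : ℝ) + 1) / 2) Λ E h T := rfl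
    have e2 : Exc i (Pool.Agent.K3h34.DL.F (((i : ℝ) + 1) / 2) Λ E h) (Ioc T (2 * T)) =
        Pool.Agent.K3h34.DL.Exc (((i : ℝ) + 1) / 2) Λ E h T := by
      ext s
      exact ⟨fun ⟨a1, a2, a3⟩ => ⟨⟨a1, a2⟩, a3⟩, fun ⟨⟨a1, a2⟩, a3⟩ => ⟨a1, a2, a3⟩⟩
    rw [e1, e2]
    exact h6
  · obtain ⟨c, C, hc, hC, h5⟩ := Pool.Agent.K3h34.DL.part4 D hκ0 hgy.good hgy.top h4.dens ε hε hε1
    refine ⟨c, C, hc, hC, fun h T hh hh2 hT => (measure_mono ?_).trans (h5 h T hh hh2 hT)⟩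
    rintro t ⟨a1, a2, a3⟩
    refine ⟨a1, a2, fun h6 => a3 ?_⟩
    have h7 := fine_of h6
    push_cast at h7
    exact h7
  · rw [Pool.Agent.K3h34.DL.part6 D h hh]
    constructor
    · intro h5 θ s hs
      rw [F_eq, Ex_eq] at hs
      exact h5 θ s hs
    · intro h5 θ s hs
      rw [← Ex_eq, ← F_eq] at hs
      exact h5 θ s hs
  · rw [F_eq, Ex_eq] at hs₀
    rw [Pool.Agent.K3h34.DL.part5 D θ s₀ hs₀]
    constructor
    · intro h5 h hh s hs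
      rw [F_eq, Ex_eq] at hs
      exact h5 h hh s hs
    · intro h5 h hh s hs
      rw [← Ex_eq, ← F_eq] at hs
      exact h5 h hh s hs

end

end Pool.Agent.Results.MP_7193be_nt.DifferencedLFunctions
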