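import Pool.Agent.K3h80.LH.Fin
import Pool.Agent.Results.MP_7193be_nt.ZeroDensity

/-!
# The Laguerre inequalities for Hasse-Weil L-functions hold outside of exponentially small sets

Let `X` be smooth and projective over `ℤ[1/N]`, `i ≥ 0`, and suppose that `H^i(X)` is (up to semisimplification) a sum
of parts `V(f) (-r)`, where `f` is a newform of any weight `k ≥ 1`, any level and any nebentypus, and `k + 2r = i + 1`
(setting and definitions of the starting file `Pool.Agent.Results.MP_7193be_nt.ZeroDensity`).  Examples: `H^1` of the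
modular curves `X_0(M)`, `X_1(M)`, of all elliptic curves over `ℚ`, of all products of abelian varieties over `ℚ` of
`GL_2`-type and of their Weil restrictions from abelian number fields; `H^3` of rigid Calabi-Yau threefolds over `ℚ`.

Let `Λ = Λ_A(i; X, s)`, `a = (i + 1)/2`, and

  `|Λ(a + x + i t)|² = ∑ L_m(t) x^(2m)`   (`x`, `t` real).

Part (d) of the problem (all zeros of `Λ` are on the line `Re s = a`) says that `L_m(t) ≥ 0` for all `m ≥ 0` and all
real `t` (Laguerre inequalities).  With no hypothesis: a zero `s` off the line makes some `L_m(Im s)` negative, and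
`L_m(t) ≤ 0` implies that there is a zero `s` with `|t - Im s| ≤ |Re s - a|`; and there are `c, C > 0` such that, for
all `m ≥ 0` and all `T ≥ 0`, the heights `t` in `[0, T]` at which some Laguerre inequality `L_k(t) > 0` of order
`k ≥ m` fails have measure at most `C exp (-c m) T`.

Proof.  For all orders `m ≥ C' log (|t| + 2)` the inequality holds (Cauchy integral through the real saddle point; starting
modules `Pool.Agent.TH803.LU`).  At a given scale `m / log T` the function `Λ` looks, to the right of the line, like an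
exponential function, outside of a set of heights of proportion `exp (-c m)` (starting modules `Pool.Agent.Y671`,
`Pool.Agent.R838` and many others: mollified second moments of the L-functions of newforms, shifted convolution sums);
this gives `L_m(t) > 0` by the saddle point method (`Pool.Agent.K3h80.LAG`).  The last parts use the theorem of
Gauss and Lucas for the function `F` with `F(z²) = Λ(a + i t + z) conj Λ(a + i t + conj z)`.
-/

set_option autoImplicit false

namespace Pool.Agent.Results.MP_7193be_nt.LaguerreInequalities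

open MeasureTheory
open Pool.Agent.Results.MP_7193be_nt.ZeroDensity (Part IsCompleted key)

/-- The Laguerre expression `L_m(t)` of `Λ` at the height `t`: the coefficient of `x^(2m)` in
`|Λ((i + 1)/2 + x + i t)|²`, `x` real. -/
noncomputable def L (i : ℕ) (Λ : ℂ → ℂ) (m : ℕ) (t : ℝ) : ℝ :=
  iteratedDeriv (2 * m) (fun x : ℝ => ‖Λ (((((i : ℝ) + 1) / 2 + x : ℝ) : ℂ) + t * Complex.I)‖ ^ 2) 0 /
    ((2 * m).factorial : ℝ)

/-- **Main theorem.** Let `Λ` be the completed Hasse-Weil L-function with the parts `π_0, …, π_n`.  It exists, is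
unique and satisfies the functional equation.  The expansion of `|Λ|²`; the criterion for (d), also in terms of the
measure of the bad set; the bad set and the zeros off the line; the measure of the heights in `[0, T]` at which some
inequality of order at least `m` fails. -/
theorem result {i n : ℕ} (π : Fin (n + 1) → Part i) :
    ∃ Λ : ℂ → ℂ, IsCompleted π Λ ∧ (∀ Λ' : ℂ → ℂ, IsCompleted π Λ' → Λ' = Λ) ∧
      (∃ W : ℂ, ‖W‖ = 1 ∧ ∀ s : ℂ, Λ (i + 1 - s) = W * (starRingEnd ℂ) (Λ ((starRingEnd ℂ) s))) ∧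
      (∀ t x : ℝ, HasSum (fun m : ℕ => L i Λ m t * x ^ (2 * m))
        (‖Λ (((((i : ℝ) + 1) / 2 + x : ℝ) : ℂ) + t * Complex.I)‖ ^ 2)) ∧
      ((∀ s : ℂ, Λ s = 0 → s.re = ((i : ℝ) + 1) / 2) ↔ ∀ (m : ℕ) (t : ℝ), 0 ≤ L i Λ m t) ∧
      ((∀ s : ℂ, Λ s = 0 → s.re = ((i : ℝ) + 1) / 2) ↔ volume {t : ℝ | ∃ m : ℕ, L i Λ m t < 0} = 0) ∧
      (∀ s : ℂ, Λ s = 0 → s.re ≠ ((i : ℝ) + 1) / 2 → ∃ m : ℕ, L i Λ m s.im < 0) ∧
      (∀ (m : ℕ) (t : ℝ), L i Λ m t ≤ 0 →
        ∃ s : ℂ, Λ s = 0 ∧ |t - s.im| ≤ |s.re - ((i : ℝ) + 1) / 2|) ∧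
      (∃ c C : ℝ, 0 < c ∧ 0 < C ∧ ∀ (m : ℕ) (T : ℝ), 0 ≤ T →
        volume {t : ℝ | 0 ≤ t ∧ t ≤ T ∧ ∃ k : ℕ, m ≤ k ∧ L i Λ k t ≤ 0} ≤
          ENNReal.ofReal (C * Real.exp (-(c * m)) * T)) := by
  obtain ⟨Λ, v, hv, h1, h2, h3, h4⟩ := key π
  have hκ : (1 : ℝ) / 2 ≤ ((n + 1 : ℕ) : ℝ) := by
    push_cast
    have : (0 : ℝ) ≤ n := Nat.cast_nonneg n
    linarith
  exact ⟨Λ, h1, h2, h3, Pool.Agent.K3h80.LH.final hκ h4 hv h1.1⟩

end Pool.Agent.Results.MP_7193be_nt.LaguerreInequalities
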