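import Pool.Agent.Results.MP_7193be_nt.UniformDerivatives
import Pool.Agent.K3h84.DL.Coh2
import Pool.Agent.K3h84.DL.Zt
import Pool.Agent.K3h84.DL.Pt

/-!
# Zeros of the derivatives of Hasse-Weil L-functions to the left of the critical line

Let `L(s) = L(i; X, s)` be a Hasse-Weil L-function (with the Euler factors at the bad primes, but without gamma
factors), `b = b_i` its degree and `Re s = x`, `x = (i + 1)/2`, its critical line.  If part (d) of the problem holds
for `(X, i)` then, for each fixed `k`, the derivative `L^(k)` has only finitely many zeros to the left of the line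
in the sectors `x - Re s ≤ |Im s|/8` (for `zeta`: Speiser, Levinson-Montgomery).  How high up is this visible in the
`k`-th derivative, unconditionally?  We call `κ` a horizon if, for all large `k`, `L^(k)` has no zeros with

  `k ≤ |Im s| ≤ e^(κ k)`  and  `x - |Im s|/8 ≤ Re s ≤ x`.

We prove, for `Λ` the completed L-function:

* every `κ < 2/b` is a horizon (no hypothesis on the zeros of `L`);
* if `Λ` has, for every `ε`, only finitely many zeros with `Re s > x + ϑ + ε` then every `κ < 1/(b ϑ)` is a horizon;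
* if `κ > 0` is a horizon then `Λ` has, for every `ε`, only finitely many zeros with `Re s > x + 2/(κ b) + ε`;
* hence all `κ` are horizons if and only if `Λ` has, for every `ε > 0`, only finitely many zeros at a distance `> ε`
  of the line;
* if `L` satisfies the Lindelöf hypothesis then the second statement is sharp: for `κ > 0` all `κ' < κ` are horizons if
  and only if `Λ` has, for every `ε`, only finitely many zeros with `Re s > x + 1/(κ b) + ε`.

So if `ϑ` is the largest distance of the line at which there are infinitely many zeros of `Λ` (up to `ε`), the largest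
horizon is between `1/(b ϑ)` and `2/(b ϑ)`, and it is `1/(b ϑ)` under the Lindelöf hypothesis.

These statements (`DerivativeZeros` below) are proved

* (I) for all `X` and `i` for which the continuation and the functional equation (parts (a), (b)) are known or
  assumed: `V.Continued A r Λ` (with `A ≥ 1`, `r ≤ b`, finite order), the Euler factors having the properties listed in
  `Cohomology i` (the setting of the file `UniformDerivatives` of the starting files);
* (II) without any hypothesis if `H^i(X)` is, up to semisimplification, a sum of parts `V(f) (-r)`, where `f` is a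
  newform of any weight `k ≥ 1`, any level and any nebentypus, and `k + 2r = i + 1`: `H^1` of all elliptic curves over
  `ℚ`, of the modular curves, of products of abelian varieties of `GL_2`-type, `H^3` of rigid Calabi-Yau threefolds over
  `ℚ` (setting of the file `ZeroDensity` of the starting files);
* (III) for the Riemann zeta function (`X = Spec ℤ`, `i = 0`), where moreover some `κ > 2` is a horizon if and only if
  `zeta` has a zero-free half-plane `Re s > θ`, `θ < 1`.

Proof (modules `Pool.Agent.K3h84.DL`).  Reflect: `F(z) = conj L(x - conj z)` has the form `Ψ(z) L(x + z)` with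
`Ψ'/Ψ = b log t + O(1)`.  At the height `t` the Cauchy integral for `F^(n)(z)`, `Re z ≥ 0`, `n ≥ r b log t`, has its
mass in a neighbourhood of the point at distance `n/(b log t) ≥ r` to the right of `z`, where `F` looks like
`exp (b log t · z)` if `L` has no zeros with `Re s > x + ϑ`, `ϑ < r`; the rest of the circle is small by the convexity
bound.  This gives the horizons.  Conversely, if `F^(n)` has no zeros with `Re z > 0` for all `n ≥ r b log t`, one goes
back from the derivatives, where `F^(n)` is regular by Borel-Carathéodory and three circles, to `F` itself by Taylor's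
formula, comparing with the growth of `F` to the left of a hypothetical zero (convexity: factor 2; Lindelöf: factor 1;
van der Corput's bound near `Re s = 1`: the threshold for `zeta`).
-/

set_option autoImplicit false

namespace Pool.Agent.Results.MP_7193be_nt.LeftHorizon

open UpperHalfPlane hiding I
open Complex MatrixGroups CongruenceSubgroup
open Pool.Agent.Results.MP_7193be_nt.UniformDerivatives (Cohomology)

/-! ### The statements -/

/-- `κ` is a horizon for `L` (with critical line `Re s = x`): for all large `k`, the `k`-th derivative of `L` has no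
zeros with `k ≤ |Im s| ≤ e^(κ k)` and `x - |Im s|/8 ≤ Re s ≤ x`. -/
def Horizon (x : ℝ) (L : ℂ → ℂ) (κ : ℝ) : Prop :=
  ∃ K : ℕ, ∀ k : ℕ, K ≤ k → ∀ s : ℂ, (k : ℝ) ≤ |s.im| → |s.im| ≤ Real.exp (κ * k) →
    x - |s.im| / 8 ≤ s.re → s.re ≤ x → iteratedDeriv k L s ≠ 0

/-- For every `ε > 0` the function `Λ` has only finitely many zeros with `Re s > σ + ε`. -/
def AlmostFree (σ : ℝ) (Λ : ℂ → ℂ) : Prop :=
  ∀ ε : ℝ, 0 < ε → {s : ℂ | Λ s = 0 ∧ σ + ε < s.re}.Finite

/-- The Lindelöf hypothesis for `L` on the line `Re s = x`. -/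
def Lindelof (x : ℝ) (L : ℂ → ℂ) : Prop :=
  ∀ ε : ℝ, 0 < ε → ∃ T : ℝ, ∀ t : ℝ, T ≤ |t| → ‖L ((x : ℂ) + t * I)‖ ≤ |t| ^ ε

/-- The statements on the zeros of the derivatives of an L-function `L` of degree `b`, with critical line `Re s = x`
and completed L-function `Λ`, to the left of the line.

* `unconditional`: every `κ < 2/b` is a horizon.
* `of_free`: zero-free half-planes (up to finitely many zeros) push the horizon up.
* `free`: horizons give zero-free half-planes (up to finitely many zeros).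
* `grh`: all `κ` are horizons if and only if, for every `ε > 0`, there are only finitely many zeros to the right of
  `Re s = x + ε`.
* `sharp`: the precise relation under the Lindelöf hypothesis. -/
structure DerivativeZeros (b : ℕ) (x : ℝ) (L Λ : ℂ → ℂ) : Prop where
  unconditional : ∀ κ : ℝ, κ * b < 2 → Horizon x L κ
  of_free : ∀ ϑ κ : ℝ, 0 ≤ ϑ → AlmostFree (x + ϑ) Λ → κ * b * ϑ < 1 → Horizon x L κ
  free : ∀ κ : ℝ, 0 < κ → Horizon x L κ → AlmostFree (x + 2 / (κ * b)) Λ
  grh : (∀ κ : ℝ, Horizon x L κ) ↔ AlmostFree x Λ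
  sharp : Lindelof x L → ∀ κ : ℝ, 0 < κ →
    ((∀ κ' : ℝ, κ' < κ → Horizon x L κ') ↔ AlmostFree (x + 1 / (κ * b)) Λ)

/-! ### (I) The uncompleted L-function -/

/-- The L-function `L(i; X, s)`, with the Euler factors at the bad primes, on the whole plane: the completed function
`Λ`, divided by the gamma factor, the power of the conductor, and `((s - i/2) (s - i/2 - 1))^r`. -/
noncomputable def uncompleted {i : ℕ} (V : Cohomology i) (A : ℝ) (r : ℕ) (Λ : ℂ → ℂ) (s : ℂ) : ℂ :=
  Λ s / (((s - (i : ℂ) / 2) * (s - (i : ℂ) / 2 - 1)) ^ r * ((A : ℂ) ^ (s / 2) * V.gammaFactor s))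

/-! ### (II) Sums of parts of newforms -/

/-- The `n`-th Fourier coefficient `a(n)` of `f(τ) = ∑ a(n) e^(2πinτ)`. -/
noncomputable def a {M : ℕ} {k : ℤ} (f : CuspForm (Gamma1 M : Subgroup (GL (Fin 2) ℝ)) k) (n : ℕ) :
    ℂ := (qExpansion 1 f).coeff n

/-- `f` is a newform of weight `k`, level `M`, nebentypus `ψ`; the properties that are used:
`f(γτ) = ψ(d) (cτ+d)^k f(τ)` for `γ = (a b; c d)` in `Γ₀(M)`, `a(1) = 1`, the Hecke relations
`a(mn) = a(m) a(n)` for coprime `m`, `n` and `a(p^(j+2)) = a(p) a(p^(j+1)) - ψ(p) p^(k-1) a(p^j)`,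
`conj a(n) = conj ψ(n) a(n)` for `n` prime to `M`, and the Fricke involution maps `f` to a multiple
of the form with the conjugate coefficients,
`f(-1/(Mτ)) = η (√M τ/i)^k conj (f(-conj τ))` with `|η| = 1`. -/
structure IsNewform (M : ℕ) (k : ℤ) (ψ : DirichletCharacter ℂ M)
    (f : CuspForm (Gamma1 M : Subgroup (GL (Fin 2) ℝ)) k) : Prop where
  neb : ∀ γ : SL(2, ℤ), γ ∈ Gamma0 M → ∀ τ : ℍ,
    f (γ • τ) = ψ ((γ 1 1 : ℤ) : ZMod M) * denom γ τ ^ k * f τ
  one : a f 1 = 1
  mul : ∀ m n : ℕ, Nat.Coprime m n → a f (m * n) = a f m * a f n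
  pow : ∀ p j : ℕ, p.Prime → a f (p ^ (j + 2)) = a f p * a f (p ^ (j + 1)) -
    ψ (p : ZMod M) * (p : ℂ) ^ (k - 1) * a f (p ^ j)
  conj : ∀ n : ℕ, Nat.Coprime n M → (starRingEnd ℂ) (a f n) =
    (starRingEnd ℂ) (ψ (n : ZMod M)) * a f n
  fricke : ∃ η : ℂ, ‖η‖ = 1 ∧ ∀ τ τ' τc : ℍ, (τ' : ℂ) * ((M : ℂ) * (τ : ℂ)) = -1 →
    (τc : ℂ) = -(starRingEnd ℂ) (τ : ℂ) →
    f τ' = η * (((Real.sqrt M : ℝ) : ℂ) * (τ : ℂ) / Complex.I) ^ k * (starRingEnd ℂ) (f τc)

/-- A part `V(f) (-r)` of a cohomology group of degree `i`: a newform `f` of level `M`, weight `k` and nebentypus `ψ`,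
and a Tate twist `(-r)` with `k + 2r = i + 1`. -/
structure Part (i : ℕ) where
  M : ℕ
  k : ℕ
  r : ℕ
  ψ : DirichletCharacter ℂ M
  f : CuspForm (Gamma1 M : Subgroup (GL (Fin 2) ℝ)) (k : ℤ)
  M_pos : 1 ≤ M
  k_pos : 1 ≤ k
  newform : IsNewform M k ψ f
  weight : k + 2 * r = i + 1

/-- The polynomial `P_i(X(p), T)` at `T = p^(-s)` for the sum `V` of the parts `π_0, …, π_n`:
`∏_j (1 - a_j(p) p^(r_j - s) + ψ_j(p) p^(i - 2s))`, where `ψ_j(p) = 0` for `p ∣ M_j` (for the bad `p`
this is the polynomial of the Frobenius on the inertia invariants, so that `P(p, s)⁻¹ = L_p(i; X, s)`). -/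
noncomputable def P {i n : ℕ} (π : Fin (n + 1) → Part i) (p : ℕ) (s : ℂ) : ℂ :=
  ∏ j, (1 - a (π j).f p * (p : ℂ) ^ (((π j).r : ℂ) - s) +
    (π j).ψ (p : ZMod (π j).M) * (p : ℂ) ^ ((i : ℂ) - 2 * s))

/-- The factor `∏_j (√M_j / 2π)^s Γ(s - r_j)`, up to a constant `A^(s/2) ∏_j Γ_ℂ(s - r_j)` with the conductor
`A = ∏_j M_j`. -/
noncomputable def gam {i n : ℕ} (π : Fin (n + 1) → Part i) (s : ℂ) : ℂ :=
  ∏ j, (((Real.sqrt (π j).M / (2 * Real.pi) : ℝ) : ℂ) ^ s * Complex.Gamma (s - (π j).r))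

/-- `L` is the continuation of the Hasse-Weil L-function with `H^i(X) = π_0 ⊕ … ⊕ π_n` to an entire function. -/
def IsLFunction {i n : ℕ} (π : Fin (n + 1) → Part i) (L : ℂ → ℂ) : Prop :=
  Differentiable ℂ L ∧ ∀ s : ℂ, (i : ℝ) / 2 + 1 < s.re → HasProd (fun p : Nat.Primes => (P π p s)⁻¹) (L s)

/-- `Λ` is entire and `Λ(s) = gam(s) L(s)` (outside of a part of the real axis). -/
def Completes {i n : ℕ} (π : Fin (n + 1) → Part i) (L Λ : ℂ → ℂ) : Prop :=
  Differentiable ℂ Λ ∧ ∀ s : ℂ, (s.im ≠ 0 ∨ (i : ℝ) / 2 + 1 < s.re) → Λ s = gam π s * L s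

theorem of_F2 {b : ℕ} {x : ℝ} {L Λ : ℂ → ℂ} (h : Pool.Agent.K3h84.DL.F2 (b : ℝ) x L Λ) :
    DerivativeZeros b x L Λ := by
  obtain ⟨h1, h2, h3, h4, h5⟩ := h.main
  exact ⟨h1, h2, h3, h4, h5⟩

theorem eq_L {i : ℕ} (V : Cohomology i) {A : ℝ} {r : ℕ} {Λ : ℂ → ℂ} (h : V.Continued A r Λ) :
    ∃ σ : ℝ, ∀ s : ℂ, σ ≤ s.re → uncompleted V A r Λ s = V.L s := by
  obtain ⟨σ, hσ⟩ := h.eq
  refine ⟨max σ ((i : ℝ) + 2), fun s hs => ?_⟩
  have h1 : σ ≤ s.re := (le_max_left _ _).trans hs
  have h2 : (i : ℝ) + 2 ≤ s.re := (le_max_right _ _).trans hs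
  have hi : (0 : ℝ) ≤ i := Nat.cast_nonneg i
  have hc : ((i : ℂ) / 2) = (((i : ℝ) / 2 : ℝ) : ℂ) := by push_cast; rfl
  have hre : (s - (i : ℂ) / 2).re = s.re - (i : ℝ) / 2 := by
    rw [Complex.sub_re, hc, Complex.ofReal_re]
  have hA : (A : ℂ) ≠ 0 := by
    have := h.one_le
    exact_mod_cast (by linarith : A ≠ 0)
  have h3 : s - (i : ℂ) / 2 ≠ 0 := by
    intro h0
    rw [h0, Complex.zero_re] at hre
    linarith
  have h4 : s - (i : ℂ) / 2 - 1 ≠ 0 := by
    intro h0
    have : (s - (i : ℂ) / 2).re = 1 := by rw [sub_eq_zero.1 h0, Complex.one_re]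
    rw [hre] at this
    linarith
  have h5 : (A : ℂ) ^ (s / 2) ≠ 0 := by
    rw [Ne, Complex.cpow_eq_zero_iff]; tauto
  have h6 : V.gammaFactor s ≠ 0 := by
    unfold Cohomology.gammaFactor
    refine mul_ne_zero (Finset.prod_ne_zero_iff.2 fun p hp => pow_ne_zero _ ?_) ?_
    · rw [← Complex.Gammaℝ_mul_Gammaℝ_add_one]
      have hp1 : (p : ℝ) ≤ i := by
        rw [Finset.mem_range] at hp
        have : p ≤ i := by omega
        exact_mod_cast this
      have hpr : (s - (p : ℂ)).re = s.re - p := by simp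
      exact mul_ne_zero (Gammaℝ_ne_zero_of_re_pos (by rw [hpr]; linarith))
        (Gammaℝ_ne_zero_of_re_pos (by rw [Complex.add_re, hpr, Complex.one_re]; linarith))
    · split_ifs
      · exact mul_ne_zero (pow_ne_zero _ (Gammaℝ_ne_zero_of_re_pos (by rw [hre]; linarith)))
          (pow_ne_zero _ (Gammaℝ_ne_zero_of_re_pos (by
            rw [Complex.add_re, hre, Complex.one_re]; linarith)))
      · exact one_ne_zero
  unfold uncompleted
  rw [hσ s h1, ← mul_assoc]
  exact mul_div_cancel_left₀ _ (mul_ne_zero (pow_ne_zero _ (mul_ne_zero h3 h4)) (mul_ne_zero h5 h6))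

/-- **The theorem.**  The statements `DerivativeZeros` hold

* (I) for the L-function of every `X` in every degree `i`, if it has the continuation and the functional equation
  (`V.Continued A r Λ`) and Euler factors as in `Cohomology i`;
* (II) for all sums of parts of newforms, unconditionally (degree `2 (n + 1)`);
* (III) for the Riemann zeta function; moreover a horizon `κ > 2` exists if and only if it has a zero-free
  half-plane. -/
theorem result :
    (∀ (i : ℕ) (V : Cohomology i) (A : ℝ) (r : ℕ) (Λ : ℂ → ℂ), V.Continued A r Λ →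
      (∃ σ : ℝ, ∀ s : ℂ, σ ≤ s.re → uncompleted V A r Λ s = V.L s) ∧
      DerivativeZeros V.betti (((i : ℝ) + 1) / 2) (uncompleted V A r Λ) Λ) ∧
    (∀ (i n : ℕ) (π : Fin (n + 1) → Part i), ∃ L Λ : ℂ → ℂ, IsLFunction π L ∧ Completes π L Λ ∧
      (∃ W : ℂ, ‖W‖ = 1 ∧ ∀ s : ℂ, Λ (i + 1 - s) = W * (starRingEnd ℂ) (Λ ((starRingEnd ℂ) s))) ∧
      DerivativeZeros (2 * (n + 1)) (((i : ℝ) + 1) / 2) L Λ) ∧
    (DerivativeZeros 1 (1 / 2) riemannZeta riemannZeta ∧
      ((∃ κ : ℝ, 2 < κ ∧ Horizon (1 / 2) riemannZeta κ) ↔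
        ∃ θ : ℝ, θ < 1 ∧ ∀ s : ℂ, θ < s.re → riemannZeta s ≠ 0)) := by
  refine ⟨fun i V A r Λ h => ⟨eq_L V h, ?_⟩, fun i n π => ?_, ?_, ?_⟩
  · have hd : ∀ p : ℕ, p.Prime → (V.P p).natDegree ≤ V.betti := by
      intro p hp
      by_cases hpN : p ∣ V.N
      · exact V.degree_bad p hp hpN
      · exact (V.degree_good p hp hpN).le
    have hr : ∀ p : ℕ, p.Prime → ∀ z : ℂ, Polynomial.aeval z (V.P p) = 0 →
        (p : ℝ) ^ (-(((i : ℝ) + 1) / 2)) ≤ ‖z‖ := by
      intro p hp z hz
      by_cases hpN : p ∣ V.N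
      · exact V.roots_bad p hp hpN z hz
      · rw [V.roots_good p hp hpN z hz]
        exact Real.rpow_le_rpow_of_exponent_le (by exact_mod_cast hp.one_le) (by linarith)
    obtain ⟨f, hF⟩ := Pool.Agent.K3h84.DL.data (i := i) (h := V.hodge) (a := V.plus) (b := V.minus)
      (P := V.P) V.betti_pos V.const hd hr V.N_pos (fun p hp hpN z hz => (V.roots_good p hp hpN z hz).ge)
      h.one_le h.r_le h.entire h.order h.fe h.eq
    exact of_F2 hF.two
  · have : ∀ j, NeZero ((π j).M) := fun j => ⟨Nat.one_le_iff_ne_zero.1 (π j).M_pos⟩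
    choose η hη hfr using fun j => (π j).newform.fricke
    obtain ⟨L, Λ, h1, h2, h3, h4, h5, h6⟩ := Pool.Agent.K3h84.DL.data_parts (i := i)
      (fun j => (π j).M) (fun j => (π j).k) (fun j => (π j).r) (fun j => (π j).ψ) (fun j => (π j).f) η
      (fun j => (π j).k_pos) (fun j => ⟨(π j).newform.neb, (π j).newform.one, (π j).newform.mul,
        (π j).newform.pow, (π j).newform.conj, hη j, hfr j⟩) (fun j => (π j).weight)
    exact ⟨L, Λ, ⟨h1, h2⟩, ⟨h3, h4⟩, h5, of_F2 h6⟩
  · obtain ⟨f, hF, -⟩ := Pool.Agent.K3h84.DL.fd_zeta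
    obtain ⟨h1, h2, h3, h4, h5⟩ := of_F2 hF.two
    have key : ∀ {σ : ℝ}, 1 / 2 ≤ σ → (AlmostFree σ riemannZeta ↔
        AlmostFree σ Pool.Agent.K3h84.DL.X0) := fun hσ => Pool.Agent.K3h84.DL.af_zeta hσ
    refine ⟨h1, fun ϑ κ hϑ hA hκ => h2 ϑ κ hϑ ((key (by linarith)).1 hA) hκ,
      fun κ hκ hH => (key ?_).2 (h3 κ hκ hH), h4.trans (key le_rfl).symm,
      fun hL κ hκ => (h5 hL κ hκ).trans (key ?_).symm⟩
    · have : 0 < 2 / (κ * ((1 : ℕ) : ℝ)) := by
        rw [Nat.cast_one, mul_one]; positivity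
      linarith
    · have : 0 < 1 / (κ * ((1 : ℕ) : ℝ)) := by
        rw [Nat.cast_one, mul_one]; positivity
      linarith
  · exact Pool.Agent.K3h84.DL.main_zeta.2.2.2.1

end Pool.Agent.Results.MP_7193be_nt.LeftHorizon
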