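import Pool.Agent.K3h51.Lh.Fin

/-!
# Li coefficients of the derivatives of all Hasse-Weil L-functions, with one constant

Let `X` be projective and smooth over `ℤ[1/N]` and let `Λ` be the completed L-function `Λ_A(i; X, s)`, for
even `i` multiplied by `((s - i/2) (s - i/2 - 1))^r` if it has poles of order `r` at `s = i/2`, `i/2 + 1`.
Let `x = (i+1)/2`, so that part (d) of the problem says that all zeros of `Λ` are on the line `Re s = x`.

Li's criterion for `Λ` uses the logarithmic derivative of `w ↦ Λ(x - 1/2 + 1/(1-w))` at `w = 0`: its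
coefficients are the Li coefficients of `Λ`, and (d) holds if and only if all of them are nonnegative (if
`Λ(x + 1/2) ≠ 0`).  More generally we use a base point `x + b`, `b ≥ 1/2`, in place of `x + 1/2`: then the
map is `w ↦ x + b (2/(1-w) - 1)`, which sends the unit disc to the half-plane `Re s > x` and `0` to
`x + b`.  Let `λ_{n,k}(b)` be the `k`-th Li coefficient for the `n`-th derivative `Λ^(n)` and the base point
`x + b`.

Let `ℓ(y) = b_i + log 𝔠(y)` with the Betti number `b_i` and the analytic conductor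
`𝔠(y) = A ∏ (1 + |μ + i y|)` at height `y` (the product over the parameters `μ` of the gamma factors
`Γ_ℝ`).  We prove that there is ONE constant `C`, the same for all `N`, `X`, `i` (so for all Betti
numbers, all Hodge numbers and all conductors), such that

  `λ_{n,k}(b) > 0` for all `b ≥ 1/2`, `k ≥ 1` and `n ≥ C ℓ(b √k)`.

So for every `k` and `b` at most a constant times `ℓ(b √k)` of the orders `n` are left out.  Part (d) for
`(X, i)` implies the positivity for all `n` and `k`, and follows from it for `n = 0` and all `k`; so (d) is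
equivalent to the statement that the remaining coefficients, those with `n < C ℓ(b √k)`, are nonnegative.

This is proved

* (I) for all `X` and `i` for which the continuation and the functional equation (parts (a), (b)) are known
  or assumed: `Λ` is entire, of finite order, and `Λ(s) = ± Λ(i + 1 - s)`;
* (II) without any hypothesis for `X = E^g`, `E : y² = x³ - x`, for all `g` and all odd `i < 2g`.

In (I) `X` enters through the following data (`Cohomology i`), which by Deligne's theorem have the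
properties required: the polynomials `P_i(X(p), T) ∈ ℤ[T]` for `p ∤ N`, with constant term `1`, degree
`b_i` and reciprocal roots of absolute value `p^{i/2}`; the Hodge numbers; and polynomials for the primes
`p ∣ N`, of degree at most `b_i` and with reciprocal roots at most `p^{(i+1)/2}`.

Proof.  By the theorem of the starting files on the zeros of the derivatives, the zeros of `Λ^(n)` up to
the height `T` with `n = C₀ ℓ(T)` are on the line, and here `T` is a large multiple of `b √k`.  The `k`-th Li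
coefficient is a sum over the zeros of `Λ^(n)` in which the zeros on the line have nonnegative terms.  The
negative terms come from zeros above `T`; their sum is estimated by the real part of the logarithmic
derivative at distance `T` from the line.  The positive terms of the zeros at heights between `T/200` and `T`
are estimated from below by comparing the logarithmic derivatives at two distances from the line, uniformly
in the degree and the conductor.

The modules are `Pool.Agent.K3h51.Lh`, over `Pool.Agent.K3h51.Li` and the modules `Pool.Agent.TH839.UH`,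
`Pool.Agent.W355.UN`, `Pool.Agent.W355.HW` and `Pool.Agent.W169.HF` of the starting files.
-/

set_option autoImplicit false

namespace Pool.Agent.Results.MP_7193be_nt.LiHasseWeil

open Complex Polynomial
open scoped ComplexConjugate

/-! ### The data of a Hasse-Weil L-function -/

/-- The Betti number `b_i = 2 ∑_{p < q, p + q = i} h^{p,q} + h^{m,+} + h^{m,-}` (the last two for
`i = 2m`), where `hodge p = h^{p, i-p}`. -/
def bettiOf (i : ℕ) (hodge : ℕ → ℕ) (plus minus : ℕ) : ℕ :=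
  2 * ∑ p ∈ Finset.range ((i + 1) / 2), hodge p + (if Even i then plus + minus else 0)

/-- What enters of the cohomology `H^i` of a projective smooth scheme `X` over `ℤ[1/N]` in the Hasse-Weil
L-function `L(i; X, s)` and its gamma factor. -/
structure Cohomology (i : ℕ) where
  /-- the integer `N`: good reduction for `p ∤ N` -/
  N : ℕ
  /-- the Hodge numbers `hodge p = h^{p, i - p}` for `2 p < i` -/
  hodge : ℕ → ℕ
  /-- `h^{m,+}` for `i = 2m` -/
  plus : ℕ
  /-- `h^{m,-}` for `i = 2m` -/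
  minus : ℕ
  /-- `P_i(X(p), T)` for `p ∤ N`, and `det(1 - Frob_p T | H^i(X)^{I_p})` for `p ∣ N` -/
  P : ℕ → ℤ[X]
  N_pos : 0 < N
  betti_pos : 0 < bettiOf i hodge plus minus
  const : ∀ p : ℕ, p.Prime → (P p).coeff 0 = 1
  degree_good : ∀ p : ℕ, p.Prime → ¬ p ∣ N → (P p).natDegree = bettiOf i hodge plus minus
  degree_bad : ∀ p : ℕ, p.Prime → p ∣ N → (P p).natDegree ≤ bettiOf i hodge plus minus
  roots_good : ∀ p : ℕ, p.Prime → ¬ p ∣ N → ∀ z : ℂ, aeval z (P p) = 0 →
    ‖z‖ = (p : ℝ) ^ (-((i : ℝ) / 2))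
  roots_bad : ∀ p : ℕ, p.Prime → p ∣ N → ∀ z : ℂ, aeval z (P p) = 0 →
    (p : ℝ) ^ (-(((i : ℝ) + 1) / 2)) ≤ ‖z‖

namespace Cohomology

variable {i : ℕ} (V : Cohomology i)

/-- the Betti number `b_i` -/
def betti : ℕ := bettiOf i V.hodge V.plus V.minus

/-- the L-function (with the factors at the primes dividing `N`) in the half-plane of convergence -/
noncomputable def L (s : ℂ) : ℂ :=
  ∏' p : Nat.Primes, (aeval (((p : ℕ) : ℂ) ^ (-s)) (V.P p))⁻¹

/-- the gamma factor `Γ_i(s) = ∏_{p<q} Γ_ℂ(s-p)^{h^{p,q}} Γ_ℝ(s-m)^{h^{m,+}} Γ_ℝ(s-m+1)^{h^{m,-}}`, the last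
two factors for `i = 2m` only -/
noncomputable def gammaFactor (s : ℂ) : ℂ :=
  (∏ p ∈ Finset.range ((i + 1) / 2), Gammaℂ (s - p) ^ V.hodge p) *
    (if Even i then Gammaℝ (s - (i : ℂ) / 2) ^ V.plus * Gammaℝ (s - (i : ℂ) / 2 + 1) ^ V.minus
      else 1)

/-- the analytic conductor at height `y`, for the conductor `A` -/
noncomputable def analyticConductor (A y : ℝ) : ℝ :=
  A * ((∏ p ∈ Finset.range ((i + 1) / 2), ((1 + ‖(y : ℂ) * I + ((i : ℂ) / 2 - p)‖) *
    (1 + ‖(y : ℂ) * I + ((i : ℂ) / 2 - p + 1)‖)) ^ V.hodge p) *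
    (if Even i then (1 + ‖(y : ℂ) * I + 0‖) ^ V.plus * (1 + ‖(y : ℂ) * I + 1‖) ^ V.minus else 1))

/-- `Λ` is the completed L-function `Λ_A(i; X, s)` (multiplied by `((s - i/2) (s - i/2 - 1))^r`), and it
has the properties (a), (b): it is entire, of finite order, and `Λ(s) = ± Λ(i + 1 - s)`. -/
structure Continued (A : ℝ) (r : ℕ) (Λ : ℂ → ℂ) : Prop where
  one_le : 1 ≤ A
  r_le : r ≤ V.betti
  entire : Differentiable ℂ Λ
  order : ∃ c ρ : ℝ, ∀ s : ℂ, ‖Λ s‖ ≤ Real.exp (c * (1 + ‖s‖) ^ ρ)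
  fe : ∃ ε : ℝ, (ε = 1 ∨ ε = -1) ∧ ∀ s : ℂ, Λ s = ε * Λ (i + 1 - s)
  eq : ∃ σ : ℝ, ∀ s : ℂ, σ ≤ s.re → Λ s = ((s - (i : ℂ) / 2) * (s - (i : ℂ) / 2 - 1)) ^ r *
    ((A : ℂ) ^ (s / 2) * V.gammaFactor s * V.L s)

end Cohomology

/-! ### The powers of the curve `y² = x³ - x` -/

/-- `a_p`: the prime `p` minus the number of the pairs `(x, y)` modulo `p` with `y² = x³ - x` -/
noncomputable def a (p : ℕ) : ℤ :=
  (p : ℤ) - (((Finset.range p ×ˢ Finset.range p).filter
    (fun xy : ℕ × ℕ => (p : ℤ) ∣ (xy.2 : ℤ) ^ 2 - ((xy.1 : ℤ) ^ 3 - (xy.1 : ℤ)))).card : ℤ)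

/-- `α p`, `β p` are the roots of `T² - a_p T + p` for every prime `p ≠ 2` -/
def FrobeniusRoots (α β : ℕ → ℂ) : Prop :=
  ∀ p : ℕ, p.Prime → p ≠ 2 → α p + β p = (a p : ℂ) ∧ α p * β p = p

/-- `P_i(X(p), p^{-s})` for `X = E^g`: the product of `(1 - α^j β^(i-j) p^(-s))` over `0 ≤ j ≤ i`
with the multiplicities `C(g, j) C(g, i-j)` -/
noncomputable def P (g i : ℕ) (α β : ℂ) (p : ℕ) (s : ℂ) : ℂ :=
  ∏ j ∈ Finset.range (i + 1),
    (1 - α ^ j * β ^ (i - j) * (p : ℂ) ^ (-s)) ^ (g.choose j * g.choose (i - j))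

/-- `L` is the continuation of `L(i; E^g, s) = ∏_{p ≠ 2} P_i(X(p), p^{-s})⁻¹` to an entire
function -/
def IsHasseWeil (g i : ℕ) (L : ℂ → ℂ) : Prop :=
  Differentiable ℂ L ∧ ∀ α β : ℕ → ℂ, FrobeniusRoots α β → ∀ s : ℂ, 1 + (i : ℝ) / 2 < s.re →
    HasProd (fun p : {p : ℕ // p.Prime ∧ p ≠ 2} => (P g i (α p) (β p) p s)⁻¹) (L s)

/-- the conductor `A = 32^N`, `N = ∑_{p < q, p + q = i} h^{p,q}`, `h^{p,q} = C(g, p) C(g, q)` -/
noncomputable def A (g i : ℕ) : ℝ :=
  32 ^ (∑ p ∈ Finset.range ((i + 1) / 2), g.choose p * g.choose (i - p))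

/-- the Gamma factor `Γ_i(s) = ∏_{p < q, p + q = i} Γ_ℂ(s - p)^{h^{p,q}}`, `h^{p,q} = C(g, p) C(g, q)`;
here `Γ_ℂ(s) = Γ_ℝ(s) Γ_ℝ(s + 1)` -/
noncomputable def gammaFactor (g i : ℕ) (s : ℂ) : ℂ :=
  ∏ p ∈ Finset.range ((i + 1) / 2), Gammaℂ (s - p) ^ (g.choose p * g.choose (i - p))

/-- the analytic conductor at height `y`: `A ∏_{p<q} ((1 + |i/2 - p + √-1 y|)
(1 + |i/2 - p + 1 + √-1 y|))^{h^{p,q}}` -/
noncomputable def analyticConductor (g i : ℕ) (y : ℝ) : ℝ :=
  A g i * ∏ p ∈ Finset.range ((i + 1) / 2),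
    ((1 + ‖(y : ℂ) * I + ((i : ℂ) / 2 - p)‖) * (1 + ‖(y : ℂ) * I + ((i : ℂ) / 2 - p + 1)‖)) ^
      (g.choose p * g.choose (i - p))

/-- `Λ` is entire and `Λ(s) = A^((s - i/2)/2) Γ_i(s) L(s)` for `Re s > (i - 1)/2` -/
def IsCompleted (g i : ℕ) (L Λ : ℂ → ℂ) : Prop :=
  Differentiable ℂ Λ ∧ ∀ s : ℂ, ((i : ℝ) - 1) / 2 < s.re →
    Λ s = (A g i : ℂ) ^ ((s - (i : ℂ) / 2) / 2) * gammaFactor g i s * L s

/-! ### The Li coefficients -/

/-- The `k`-th Li coefficient (`k ≥ 1`) of the `n`-th derivative of `Λ` for the line `Re s = x` and the base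
point `x + b`: the coefficient of `w^(k-1)` of the logarithmic derivative of
`w ↦ Λ^(n)(x + b (2/(1-w) - 1))`.  For `n = 0`, `b = 1/2`, `x = 1/2` the map is `w ↦ Λ(1/(1-w))` as in the
definition of Li's coefficients of the Riemann zeta function.  (The coefficients are real.) -/
noncomputable def li (Λ : ℂ → ℂ) (x b : ℝ) (n k : ℕ) : ℝ :=
  (iteratedDeriv (k - 1) (logDeriv fun w : ℂ =>
    iteratedDeriv n Λ ((x : ℂ) + (b : ℂ) * (2 / (1 - w) - 1))) 0).re / ((k - 1).factorial : ℝ)

/-- The statements on the Li coefficients of the derivatives of `Λ` (a completed L-function of degree `d`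
with critical line `Re s = x` and analytic conductor `𝔠(y)` at height `y`), with the constant `C`.

* `base`: no derivative of `Λ` vanishes at the base point `x + b` if `b > 1/2`, or if `b = 1/2` and
  `Λ(x + 1/2) ≠ 0`; so the Li coefficients are defined.
* `pos`: the `k`-th Li coefficient of `Λ^(n)` is positive if `n ≥ C (d + log 𝔠(b √k))`.
* `grh`: the Riemann hypothesis for `Λ` is equivalent to the statement that the remaining Li coefficients
  are nonnegative. -/
structure LiPositivity (C x : ℝ) (d : ℕ) (𝔠 : ℝ → ℝ) (Λ : ℂ → ℂ) : Prop where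
  base : ∀ (b : ℝ) (n : ℕ), 1 / 2 ≤ b → 1 / 2 < b ∨ Λ ((x : ℂ) + (b : ℂ)) ≠ 0 →
    iteratedDeriv n Λ ((x : ℂ) + (b : ℂ)) ≠ 0
  pos : ∀ (b : ℝ) (n k : ℕ), 1 / 2 ≤ b → 1 ≤ k →
    C * (d + Real.log (𝔠 (b * Real.sqrt k))) ≤ n →
      iteratedDeriv n Λ ((x : ℂ) + (b : ℂ)) ≠ 0 ∧ 0 < li Λ x b n k
  grh : ∀ b : ℝ, 1 / 2 ≤ b → Λ ((x : ℂ) + (b : ℂ)) ≠ 0 →
    ((∀ s : ℂ, Λ s = 0 → s.re = x) ↔ ∀ n k : ℕ, 1 ≤ k →
      (n : ℝ) < C * (d + Real.log (𝔠 (b * Real.sqrt k))) → 0 ≤ li Λ x b n k)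

/-- **The theorem.**  There is one constant `C > 0` such that the statements `LiPositivity` hold

* (I) for the L-function of every `X` in every degree `i`, if it has the continuation and the functional
  equation;
* (II) for `X = E^g`, `g` and `i` arbitrary, `i < 2g` odd, unconditionally (the Betti number is
  `(2 * g).choose i`). -/
theorem result : ∃ C : ℝ, 0 < C ∧
    (∀ (i : ℕ) (V : Cohomology i) (A : ℝ) (r : ℕ) (Λ : ℂ → ℂ), V.Continued A r Λ →
      LiPositivity C (((i : ℝ) + 1) / 2) V.betti (V.analyticConductor A) Λ) ∧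
    (∀ g i : ℕ, Odd i → i < 2 * g →
      ∃ L Λ : ℂ → ℂ, IsHasseWeil g i L ∧ IsCompleted g i L Λ ∧
        (∀ s : ℂ, Λ (conj s) = conj (Λ s)) ∧
        (∃ r : ℕ, r ≤ 1 ∧ ∀ s : ℂ, Λ (i + 1 - s) = (-1) ^ r * Λ s) ∧
        LiPositivity C (((i : ℝ) + 1) / 2) ((2 * g).choose i) (analyticConductor g i) Λ) := by
  obtain ⟨C, hC, HC⟩ := Pool.Agent.K3h51.Lh.main_pos
  refine ⟨C, hC, fun i V A r Λ h => ?_, fun g i hi hg => ?_⟩
  · have hd : ∀ p : ℕ, p.Prime → (V.P p).natDegree ≤ bettiOf i V.hodge V.plus V.minus := by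
      intro p hp
      by_cases hpN : p ∣ V.N
      · exact V.degree_bad p hp hpN
      · exact (V.degree_good p hp hpN).le
    have hr : ∀ p : ℕ, p.Prime → ∀ z : ℂ, aeval z (V.P p) = 0 →
        (p : ℝ) ^ (-(((i : ℝ) + 1) / 2)) ≤ ‖z‖ := by
      intro p hp z hz
      by_cases hpN : p ∣ V.N
      · exact V.roots_bad p hp hpN z hz
      · rw [V.roots_good p hp hpN z hz]
        exact Real.rpow_le_rpow_of_exponent_le (by exact_mod_cast hp.one_le) (by linarith)
    obtain ⟨m, μ, X, L, κ, hκ, hUR, hX, hm, hcn⟩ := Pool.Agent.K3h51.Lh.coh_UR (i := i) (h := V.hodge)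
      (a := V.plus) (b := V.minus) (P := V.P) V.N_pos V.betti_pos V.const hd hr
      (fun p hp hpN z hz => (V.roots_good p hp hpN z hz).ge) h.one_le h.r_le
      h.entire h.order h.fe h.eq
    subst hm
    have hres := Pool.Agent.K3h51.Lh.LiS_of HC hUR hκ h.entire hX hcn
    have e : (1 / 2 + (i : ℝ) / 2) = ((i : ℝ) + 1) / 2 := by ring
    rw [e] at hres
    exact ⟨hres.base, hres.pos, hres.grh⟩
  · obtain ⟨m, rfl⟩ := hi
    obtain ⟨Λ, h1, h2, h3, h4, hres⟩ := Pool.Agent.K3h51.Lh.pow_li HC g m (by omega)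
    exact ⟨fun s => Pool.Agent.W355.HW.LL0 g m (s - ((2 * m + 1 : ℕ) : ℂ) / 2), Λ,
      ⟨(Pool.Agent.W355.HW.LL0_diff g m).comp (differentiable_id.sub_const _),
        fun α β hαβ s hs => Pool.Agent.W355.HW.LL0_prod g m α β hαβ s hs⟩, ⟨h1, h2⟩, h3, h4,
      ⟨hres.base, hres.pos, hres.grh⟩⟩

end Pool.Agent.Results.MP_7193be_nt.LiHasseWeil
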